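import Pool.Agent.U707.PT.Stm

/-!
# Project PT, package EXT: extensions of mw pure modules
-/

set_option autoImplicit false

open Polynomial Module

namespace Pool.Agent.U690.PT

open Pool.Agent.U707.PT

variable {E : Type} [Field E] [CharZero E] {V V₁ V₂ : Type} [AddCommGroup V] [Module E V]
  [AddCommGroup V₁] [Module E V₁] [AddCommGroup V₂] [Module E V₂]

/-- Evaluation of rational polynomials at an operator. -/
noncomputable def ev (F : Module.End E V) : ℚ[X] →+* Module.End E V :=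
  (aeval F : E[X] →ₐ[E] Module.End E V).toRingHom.comp (mapRingHom (algebraMap ℚ E))

lemma ev_def (F : Module.End E V) (f : ℚ[X]) : ev F f = aeval F (f.map (algebraMap ℚ E)) := rfl

lemma mem_wt {q : ℕ} {F : Module.End E V} {c : ℤ} {x : V} :
    x ∈ wt q F c ↔ ∃ f, IsWeil q c f ∧ ev F f x = 0 := Iff.rfl

omit [CharZero E] in
lemma pow_comm' (φ : V →ₗ[E] V₁) (F : Module.End E V) (F' : Module.End E V₁)
    (h : ∀ x, φ (F x) = F' (φ x)) (n : ℕ) (x : V) : φ ((F ^ n) x) = (F' ^ n) (φ x) := by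
  induction n generalizing x with
  | zero => simp
  | succ n ih => rw [pow_succ, pow_succ, Module.End.mul_apply, Module.End.mul_apply, ih, h]

omit [CharZero E] in
lemma aeval_comm (φ : V →ₗ[E] V₁) (F : Module.End E V) (F' : Module.End E V₁)
    (h : ∀ x, φ (F x) = F' (φ x)) (p : E[X]) (x : V) : φ (aeval F p x) = aeval F' p (φ x) := by
  induction p using Polynomial.induction_on' with
  | add p q hp hq => rw [map_add, map_add, LinearMap.add_apply, LinearMap.add_apply, map_add, hp, hq]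
  | monomial n a =>
    rw [aeval_monomial, aeval_monomial, Module.End.mul_apply, Module.End.mul_apply,
      Module.algebraMap_end_apply, Module.algebraMap_end_apply, map_smul, pow_comm' φ F F' h]

lemma ev_comm (φ : V →ₗ[E] V₁) (F : Module.End E V) (F' : Module.End E V₁)
    (h : ∀ x, φ (F x) = F' (φ x)) (f : ℚ[X]) (x : V) : φ (ev F f x) = ev F' f (φ x) :=
  aeval_comm φ F F' h _ x

lemma map_wt {q : ℕ} {c : ℤ} (φ : V →ₗ[E] V₁) (F : Module.End E V) (F' : Module.End E V₁)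
    (h : ∀ x, φ (F x) = F' (φ x)) {x : V} (hx : x ∈ wt q F c) : φ x ∈ wt q F' c := by
  obtain ⟨f, hf, hfx⟩ := mem_wt.mp hx
  exact mem_wt.mpr ⟨f, hf, by rw [← ev_comm φ F F' h, hfx, map_zero]⟩

lemma mem_wt_of_map {q : ℕ} {c : ℤ} (φ : V →ₗ[E] V₁) (hφ : Function.Injective φ)
    (F : Module.End E V) (F' : Module.End E V₁)
    (h : ∀ x, φ (F x) = F' (φ x)) {x : V} (hx : φ x ∈ wt q F' c) : x ∈ wt q F c := by
  obtain ⟨f, hf, hfx⟩ := mem_wt.mp hx
  refine mem_wt.mpr ⟨f, hf, hφ ?_⟩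
  rw [ev_comm φ F F' h, hfx, map_zero]

lemma coprime_of_weil {q : ℕ} (hq : 1 < q) {c d : ℤ} (hcd : c ≠ d) {f g : ℚ[X]}
    (hf : IsWeil q c f) (hg : IsWeil q d g) : IsCoprime f g := by
  rw [Polynomial.isCoprime_iff_aeval_ne_zero_of_isAlgClosed (k := ℚ) (K := ℂ)]
  intro a
  by_contra h
  push Not at h
  have h1 := hf.2 a h.1
  have h2 := hg.2 a h.2
  rw [h1] at h2
  have h3 : (1:ℝ) < q := by exact_mod_cast hq
  exact hcd ((zpow_right_strictMono₀ h3).injective h2)

lemma key {q : ℕ} (hq : 1 < q) (F : Module.End E V) {c : ℤ} {f : ℚ[X]} (hf : IsWeil q c f)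
    (y : V) (hy : y ∈ ⨆ d, wt q F d) :
    ∃ z, ∃ u ∈ wt q F c, y = u + ev F f z := by
  induction hy using Submodule.iSup_induction' with
  | mem d y hy =>
    by_cases hd : d = c
    · subst hd; exact ⟨0, y, hy, by simp⟩
    · obtain ⟨g, hg, hgy⟩ := mem_wt.mp hy
      obtain ⟨a, b, hab⟩ := coprime_of_weil hq (Ne.symm hd) hf hg
      refine ⟨ev F a y, 0, zero_mem _, ?_⟩
      have h1 : ev F (a * f + b * g) y = y := by rw [hab, map_one]; rfl
      rw [map_add, LinearMap.add_apply, map_mul (ev F) b g, Module.End.mul_apply, hgy, map_zero,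
        add_zero, mul_comm, map_mul, Module.End.mul_apply] at h1
      rw [zero_add, h1]
  | zero => exact ⟨0, 0, zero_mem _, by simp⟩
  | add y1 y2 _ _ h1 h2 =>
    obtain ⟨z1, u1, hu1, e1⟩ := h1
    obtain ⟨z2, u2, hu2, e2⟩ := h2
    refine ⟨z1 + z2, u1 + u2, add_mem hu1 hu2, ?_⟩
    rw [e1, e2, map_add]; abel

lemma weil_scale {q : ℕ} (hq : 1 < q) {c : ℤ} {f : ℚ[X]} (hf : IsWeil q c f) :
    IsWeil q (c - 2) (f.comp (C (q:ℚ) * X)) := by
  have hq0 : (q:ℚ) ≠ 0 := by
    have : q ≠ 0 := by omega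
    exact_mod_cast this
  have hq1 : (q:ℝ) ≠ 0 := by
    have : q ≠ 0 := by omega
    exact_mod_cast this
  constructor
  · intro h0
    apply hf.1
    have h1 : (f.comp (C (q:ℚ) * X)).comp (C (q:ℚ)⁻¹ * X) = 0 := by rw [h0, zero_comp]
    rw [comp_assoc] at h1
    have h2 : (C (q:ℚ) * X).comp (C (q:ℚ)⁻¹ * X) = X := by
      rw [mul_comp, C_comp, X_comp, ← mul_assoc, ← C_mul, mul_inv_cancel₀ hq0, C_1, one_mul]
    rw [h2, comp_X] at h1
    exact h1
  · intro z hz
    rw [aeval_comp, map_mul, aeval_C, aeval_X] at hz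
    have h1 := hf.2 _ hz
    rw [norm_mul, mul_pow] at h1
    have h2 : ‖(algebraMap ℚ ℂ) (q:ℚ)‖ = (q:ℝ) := by simp
    rw [h2] at h1
    rw [zpow_sub₀ hq1, ← h1]
    field_simp

lemma N_wt {q : ℕ} (hq : 1 < q) (F N : Module.End E V) (hN : ∀ x, N (F x) = (q : E) • F (N x))
    {c : ℤ} {x : V} (hx : x ∈ wt q F c) : N x ∈ wt q F (c - 2) := by
  obtain ⟨f, hf, hfx⟩ := mem_wt.mp hx
  refine mem_wt.mpr ⟨_, weil_scale hq hf, ?_⟩
  have h1 : ev F (f.comp (C (q:ℚ) * X)) = aeval ((q:E) • F) (f.map (algebraMap ℚ E)) := by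
    rw [ev_def, Polynomial.map_comp, aeval_comp]
    congr 2
    simp [Algebra.smul_def]
  rw [h1, ← aeval_comm N F ((q:E) • F) (fun x => by rw [hN]; rfl), ← ev_def, hfx, map_zero]

lemma N_pow_wt {q : ℕ} (hq : 1 < q) (F N : Module.End E V) (hN : ∀ x, N (F x) = (q : E) • F (N x))
    (k : ℕ) {c : ℤ} {x : V} (hx : x ∈ wt q F c) : (N ^ k) x ∈ wt q F (c - 2 * k) := by
  induction k with
  | zero => simpa using hx
  | succ k ih =>
    rw [pow_succ', Module.End.mul_apply]
    have h := N_wt hq F N hN ih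
    convert h using 2
    push_cast; ring

theorem ext_abs {q : ℕ} (hq : 1 < q) {m : ℤ} (i : V₁ →ₗ[E] V) (π : V →ₗ[E] V₂)
    (hi : Function.Injective i) (hπ : Function.Surjective π) (hex : ∀ x, π x = 0 → ∃ w, i w = x)
    (hex' : ∀ w, π (i w) = 0)
    (F N : Module.End E V) (F₁ N₁ : Module.End E V₁) (F₂ N₂ : Module.End E V₂)
    (hiF : ∀ w, i (F₁ w) = F (i w)) (hiN : ∀ w, i (N₁ w) = N (i w))
    (hpF : ∀ x, π (F x) = F₂ (π x)) (hpN : ∀ x, π (N x) = N₂ (π x))
    (hN : ∀ x, N (F x) = (q : E) • F (N x))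
    (h₁ : MWPure q F₁ N₁ m) (h₂ : MWPure q F₂ N₂ m) : MWPure q F N m := by
  -- lifting of vectors of given weight
  have lift : ∀ (c : ℤ) (x : V), π x ∈ wt q F₂ c → ∃ w, x - i w ∈ wt q F c := by
    intro c x hx
    obtain ⟨f, hf, hfx⟩ := mem_wt.mp hx
    rw [← ev_comm π F F₂ hpF] at hfx
    obtain ⟨y, hy⟩ := hex _ hfx
    obtain ⟨z, u, hu, hyz⟩ := key hq F₁ hf y (by rw [h₁.1]; trivial)
    obtain ⟨g, hg, hgu⟩ := mem_wt.mp hu
    refine ⟨z, mem_wt.mpr ⟨g * f, hg.mul hf, ?_⟩⟩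
    rw [map_mul, Module.End.mul_apply, map_sub, ← hy, hyz, map_add, ev_comm i F₁ F hiF,
      add_sub_cancel_right, ← ev_comm i F₁ F hiF, hgu, map_zero]
  have hW : ∀ w, i w ∈ ⨆ c, wt q F c := by
    intro w
    have hw : w ∈ ⨆ c, wt q F₁ c := by rw [h₁.1]; trivial
    induction hw using Submodule.iSup_induction' with
    | mem d y hy => exact Submodule.mem_iSup_of_mem d (map_wt i F₁ F hiF hy)
    | zero => rw [map_zero]; exact zero_mem _
    | add y1 y2 _ _ h1 h2 => rw [map_add]; exact add_mem h1 h2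
  refine ⟨?_, ?_⟩
  · rw [eq_top_iff]
    rintro x -
    have hx : π x ∈ ⨆ c, wt q F₂ c := by rw [h₂.1]; trivial
    generalize hyx : π x = y at hx
    induction hx using Submodule.iSup_induction' generalizing x with
    | mem d y hy =>
      rw [← hyx] at hy
      obtain ⟨w, hw⟩ := lift d x hy
      have := add_mem (Submodule.mem_iSup_of_mem d hw) (hW w)
      rwa [sub_add_cancel] at this
    | zero =>
      obtain ⟨w, rfl⟩ := hex x hyx
      exact hW w
    | add y1 y2 _ _ h1 h2 =>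
      obtain ⟨x1, hx1⟩ := hπ y1
      obtain ⟨x2, hx2⟩ := hπ y2
      obtain ⟨w, hw⟩ := hex (x - x1 - x2) (by rw [map_sub, map_sub, hyx, hx1, hx2]; abel)
      have h3 := add_mem (add_mem (h1 hx1) (h2 hx2)) (hW w)
      rw [hw] at h3
      convert h3 using 1
      abel
  · intro k
    refine ⟨?_, ?_, ?_⟩
    · intro x hx
      have h := N_pow_wt hq F N hN k (c := m + k) hx
      rw [show m + (k:ℤ) - 2 * k = m - k by ring] at h
      exact h
    · intro x hx y hy hxy
      have hd : x - y ∈ wt q F (m + k) := sub_mem hx hy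
      have hd0 : (N ^ k) (x - y) = 0 := by rw [map_sub]; exact sub_eq_zero.mpr hxy
      have h1 : π (x - y) ∈ wt q F₂ (m + k) := map_wt π F F₂ hpF hd
      have h2 : π (x - y) = 0 := by
        apply (h₂.2 k).2.1 h1 (zero_mem _)
        rw [← pow_comm' π N N₂ hpN, hd0, map_zero, map_zero]
      obtain ⟨w, hw⟩ := hex _ h2
      have h3 : w ∈ wt q F₁ (m + k) := by
        apply mem_wt_of_map i hi F₁ F hiF
        rw [hw]; exact hd
      have h4 : w = 0 := by
        apply (h₁.2 k).2.1 h3 (zero_mem _)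
        apply hi
        rw [pow_comm' i N₁ N hiN, hw, hd0, map_zero, map_zero]
      rw [h4, map_zero] at hw
      exact (sub_eq_zero.mp hw.symm)
    · intro y hy
      have h1 : π y ∈ wt q F₂ (m - k) := map_wt π F F₂ hpF hy
      obtain ⟨xb, hxb, hxy⟩ := (h₂.2 k).2.2 h1
      obtain ⟨x, rfl⟩ := hπ xb
      obtain ⟨w, hw⟩ := lift _ x hxb
      have h2 : (N ^ k) (x - i w) ∈ wt q F (m - k) := by
        have h := N_pow_wt hq F N hN k (c := m + k) hw
        rw [show m + (k:ℤ) - 2 * k = m - k by ring] at h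
        exact h
      have h3 : π (y - (N ^ k) (x - i w)) = 0 := by
        rw [map_sub, pow_comm' π N N₂ hpN, map_sub, hex', sub_zero, hxy, sub_self]
      obtain ⟨w', hw'⟩ := hex _ h3
      have h4 : w' ∈ wt q F₁ (m - k) := by
        apply mem_wt_of_map i hi F₁ F hiF
        rw [hw']; exact sub_mem hy h2
      obtain ⟨v, hv, hvw⟩ := (h₁.2 k).2.2 h4
      refine ⟨x - i w + i v, add_mem hw (map_wt i F₁ F hiF hv), ?_⟩
      rw [map_add, ← pow_comm' i N₁ N hiN, hvw, hw']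
      abel

theorem ext : S_EXT := by
  intro E R _ _ _ _ M _ _ _ _ _ q F ν m W hq hcomm h₁ h₂
  refine ext_abs hq (W.subtype.restrictScalars E) (W.mkQ.restrictScalars E)
    (Submodule.injective_subtype W) (Submodule.mkQ_surjective W) ?_ ?_
    (act (E := E) M F) (act (E := E) M ν) (act (E := E) W F) (act (E := E) W ν)
    (act (E := E) (M ⧸ W) F) (act (E := E) (M ⧸ W) ν) ?_ ?_ ?_ ?_ ?_ h₁ h₂
  · intro x hx
    have hx' : W.mkQ x = 0 := hx
    rw [Submodule.mkQ_apply, Submodule.Quotient.mk_eq_zero] at hx'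
    exact ⟨⟨x, hx'⟩, rfl⟩
  · intro w
    show W.mkQ (w : M) = 0
    rw [Submodule.mkQ_apply, Submodule.Quotient.mk_eq_zero]
    exact w.2
  · intro w; rfl
  · intro w; rfl
  · intro w; rfl
  · intro w; rfl
  · exact hcomm

theorem t_EXT (_hP : S_PROJ) : S_EXT := ext

end Pool.Agent.U690.PT
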